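import Mathlib

/-!
# A row and column balanced `BH(4,16)` that is not a `GH(4,4)` over the fourth roots of unity
-/

namespace Pool.Agent.Results.MP_56f6b7_co.BalancedNotGH

open Complex Matrix

/-- `H` is a Butson Hadamard matrix `BH(w, v)`. -/
def IsButson (w v : ℕ) (H : Matrix (Fin v) (Fin v) ℂ) : Prop :=
  (∀ i j, H i j ^ w = 1) ∧ H * H.conjTranspose = (v : ℂ) • (1 : Matrix (Fin v) (Fin v) ℂ)

/-- every entry of the first row and of the first column is `1` -/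
def IsNormalised {v : ℕ} (H : Matrix (Fin v) (Fin v) ℂ) : Prop :=
  ∀ i j : Fin v, (i : ℕ) = 0 ∨ (j : ℕ) = 0 → H i j = 1

/-- each row other than the first contains every `w`-th root of unity exactly `v / w` times -/
def RowBalanced (w : ℕ) {v : ℕ} (H : Matrix (Fin v) (Fin v) ℂ) : Prop :=
  ∀ i : Fin v, (i : ℕ) ≠ 0 → ∀ h : ℂ, h ^ w = 1 → {j | H i j = h}.ncard = v / w

/-- each column other than the first contains every `w`-th root of unity exactly `v / w`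
times -/
def ColumnBalanced (w : ℕ) {v : ℕ} (H : Matrix (Fin v) (Fin v) ℂ) : Prop :=
  ∀ j : Fin v, (j : ℕ) ≠ 0 → ∀ h : ℂ, h ^ w = 1 → {i | H i j = h}.ncard = v / w

/-- `M` is a generalised Hadamard matrix `GH(w, v / w)` over the group of `w`-th roots of
unity -/
def IsGH (w v : ℕ) (M : Matrix (Fin v) (Fin v) ℂ) : Prop :=
  (∀ i j, M i j ^ w = 1) ∧
    ∀ i k, i ≠ k → ∀ h : ℂ, h ^ w = 1 → {j | M i j * (M k j)⁻¹ = h}.ncard = v / w

/-- the exponents of the matrix -/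
def E : Fin 16 → Fin 16 → Fin 4 :=
  ![![0, 0, 0, 0, 0, 0, 0, 0, 0, 0, 0, 0, 0, 0, 0, 0],
    ![0, 0, 0, 0, 1, 1, 1, 1, 2, 2, 2, 2, 3, 3, 3, 3],
    ![0, 1, 2, 3, 0, 0, 1, 2, 1, 3, 3, 3, 0, 1, 2, 2],
    ![0, 0, 3, 2, 1, 2, 3, 3, 1, 3, 2, 1, 1, 0, 2, 0],
    ![0, 1, 3, 1, 3, 2, 0, 3, 2, 2, 1, 0, 3, 1, 0, 2],
    ![0, 2, 3, 1, 0, 1, 3, 1, 3, 0, 3, 2, 2, 0, 1, 2],
    ![0, 2, 0, 0, 3, 2, 1, 3, 0, 1, 2, 3, 1, 3, 2, 1],
    ![0, 3, 0, 1, 2, 0, 2, 3, 1, 3, 0, 2, 3, 2, 1, 1],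
    ![0, 2, 1, 2, 1, 0, 0, 2, 3, 3, 1, 0, 2, 3, 3, 1],
    ![0, 0, 1, 0, 3, 3, 2, 2, 3, 0, 1, 1, 2, 1, 2, 3],
    ![0, 3, 1, 3, 0, 2, 3, 2, 2, 1, 3, 1, 0, 2, 0, 1],
    ![0, 1, 3, 2, 2, 3, 2, 1, 0, 1, 0, 1, 0, 3, 3, 2],
    ![0, 2, 2, 3, 1, 3, 2, 0, 2, 1, 1, 3, 3, 0, 1, 0],
    ![0, 3, 2, 2, 3, 1, 1, 0, 3, 2, 0, 2, 1, 1, 3, 0],
    ![0, 1, 1, 3, 2, 1, 3, 0, 0, 2, 3, 0, 2, 2, 1, 3],
    ![0, 3, 2, 1, 2, 3, 0, 1, 1, 0, 2, 3, 1, 2, 0, 3]]

/-- the fourth roots of unity -/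
noncomputable def ζ (e : Fin 4) : ℂ := ![1, I, -1, -I] e

/-- real part of `ζ` -/
def re (e : Fin 4) : ℤ := ![1, 0, -1, 0] e
/-- imaginary part of `ζ` -/
def im (e : Fin 4) : ℤ := ![0, 1, 0, -1] e

lemma ζ_eq (e : Fin 4) : ζ e = (re e : ℂ) + (im e : ℂ) * I := by
  fin_cases e <;> simp [ζ, re, im]

lemma ζ_pow (e : Fin 4) : ζ e ^ 4 = 1 := by
  fin_cases e <;> simp [ζ, Even.neg_pow (by decide : Even 4), I_pow_four]

lemma ζ_mul_conj (a b : Fin 4) : ζ a * (starRingEnd ℂ) (ζ b) = ζ (a - b) := by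
  fin_cases a <;> fin_cases b <;> simp [ζ]

lemma ζ_inv (b : Fin 4) : (ζ b)⁻¹ = (starRingEnd ℂ) (ζ b) := by
  fin_cases b <;> simp [ζ]

lemma ζ_inj : Function.Injective ζ := by
  intro a b h
  rw [ζ_eq, ζ_eq] at h
  have h1 := congrArg Complex.re h
  have h2 := congrArg Complex.im h
  simp only [add_re, intCast_re, mul_re, I_re, mul_zero, intCast_im, I_im, mul_one, sub_self,
    add_zero, add_im, mul_im, zero_add] at h1 h2
  have h1' : re a = re b := by exact_mod_cast h1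
  have h2' : im a = im b := by exact_mod_cast h2
  have key : ∀ a b : Fin 4, re a = re b → im a = im b → a = b := by decide
  exact key a b h1' h2'

lemma root_eq {h : ℂ} (hh : h ^ 4 = 1) : ∃ e : Fin 4, h = ζ e := by
  have e1 : (h - 1) * ((h + 1) * ((h - I) * (h + I))) = 0 := by
    have : (h - 1) * ((h + 1) * ((h - I) * (h + I))) = h ^ 4 - 1 := by
      have hI : I * I = -1 := I_mul_I
      linear_combination (1 - h ^ 2) * hI
    rw [this, hh, sub_self]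
  rcases mul_eq_zero.1 e1 with h0 | h0
  · exact ⟨0, by rw [sub_eq_zero.1 h0]; simp [ζ]⟩
  rcases mul_eq_zero.1 h0 with h0 | h0
  · exact ⟨2, by rw [eq_neg_of_add_eq_zero_left h0]; simp [ζ]⟩
  rcases mul_eq_zero.1 h0 with h0 | h0
  · exact ⟨1, by rw [sub_eq_zero.1 h0]; simp [ζ]⟩
  · exact ⟨3, by rw [eq_neg_of_add_eq_zero_left h0]; simp [ζ]⟩

/-- the matrix -/
noncomputable def H : Matrix (Fin 16) (Fin 16) ℂ := fun i j => ζ (E i j)

theorem isButson : IsButson 4 16 H := by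
  refine ⟨fun i j => ζ_pow _, ?_⟩
  have key : ∀ i k : Fin 16, (∑ j, re (E i j - E k j) = if i = k then 16 else 0) ∧
      (∑ j, im (E i j - E k j) = 0) := by decide +kernel
  ext i k
  obtain ⟨k1, k2⟩ := key i k
  have e : (H * H.conjTranspose) i k = ∑ j, ζ (E i j - E k j) := by
    rw [Matrix.mul_apply]
    exact Finset.sum_congr rfl fun j _ => ζ_mul_conj _ _
  have e2 : ∑ j, ζ (E i j - E k j) =
      ((∑ j, re (E i j - E k j) : ℤ) : ℂ) + ((∑ j, im (E i j - E k j) : ℤ) : ℂ) * I := by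
    push_cast
    rw [Finset.sum_mul, ← Finset.sum_add_distrib]
    exact Finset.sum_congr rfl fun j _ => ζ_eq _
  rw [e, e2, k1, k2]
  by_cases hik : i = k
  · simp [hik]
  · simp [hik]

lemma ncard_eq (f : Fin 16 → Fin 4) (n : ℕ)
    (key : ∀ e, (Finset.univ.filter (fun j => f j = e)).card = n) {h : ℂ} (hh : h ^ 4 = 1) :
    {j | ζ (f j) = h}.ncard = n := by
  obtain ⟨e, rfl⟩ := root_eq hh
  rw [← key e, ← Set.ncard_coe_finset]
  congr 1
  ext j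
  simp [ζ_inj.eq_iff]

theorem rowBalanced : RowBalanced 4 H := by
  have key : ∀ i : Fin 16, (i : ℕ) ≠ 0 → ∀ e : Fin 4,
      (Finset.univ.filter (fun j => E i j = e)).card = 4 := by decide +kernel
  intro i hi h hh
  exact ncard_eq _ 4 (key i hi) hh

theorem columnBalanced : ColumnBalanced 4 H := by
  have key : ∀ i : Fin 16, (i : ℕ) ≠ 0 → ∀ e : Fin 4,
      (Finset.univ.filter (fun j => E j i = e)).card = 4 := by decide +kernel
  intro i hi h hh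
  exact ncard_eq _ 4 (key i hi) hh

theorem isNormalised : IsNormalised H := by
  have key : ∀ i j : Fin 16, (i : ℕ) = 0 ∨ (j : ℕ) = 0 → E i j = 0 := by decide +kernel
  intro i j hij
  simp [H, key i j hij, ζ]

theorem count_two : {j | H 1 j * (H 2 j)⁻¹ = 1}.ncard = 2 := by
  have key : (Finset.univ.filter (fun j => E 1 j - E 2 j = 0)).card = 2 := by decide +kernel
  rw [← key, ← Set.ncard_coe_finset]
  congr 1
  ext j
  have h1 : (1 : ℂ) = ζ 0 := by simp [ζ]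
  have h2 : H 1 j * (H 2 j)⁻¹ = ζ (E 1 j - E 2 j) := by
    simp only [H]
    rw [ζ_inv, ζ_mul_conj]
  simp only [Set.mem_ofPred_eq, Finset.coe_filter, Finset.mem_univ, true_and, h2]
  rw [h1, ζ_inj.eq_iff]

theorem result : ∃ (w v : ℕ) (H : Matrix (Fin v) (Fin v) ℂ),
    2 ≤ w ∧ 1 ≤ v ∧ w ∣ v ∧ IsButson w v H ∧ IsNormalised H ∧ RowBalanced w H ∧
      ColumnBalanced w H ∧ ¬ IsGH w v H := by
  refine ⟨4, 16, H, by norm_num, by norm_num, by norm_num, isButson, isNormalised,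
    rowBalanced, columnBalanced, ?_⟩
  intro hGH
  have := hGH.2 1 2 (by decide) 1 (by norm_num)
  rw [count_two] at this
  norm_num at this

end Pool.Agent.Results.MP_56f6b7_co.BalancedNotGH
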